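import Pool.Agent.LibRC12.Main

/-!
# MP_19886c_an, Q1 (full, affirmative)

`rc(C(X) ⊗ A) ≤ rc(A) + dim(X)/2 + 1` for every unital C*-algebra `A` and every compact Hausdorff
space `X` (in particular every compact metric space); `C(X) ⊗ A = C(X, A)`.
-/

open scoped ENNReal

namespace Pool.Agent.Results.MP_19886c_an.RadiusOfComparison

theorem result : ∀ (A : Type*) [CStarAlgebra A] (X : Type*) [TopologicalSpace X] [CompactSpace X]
    [T2Space X], RC12.rc C(X, A) ≤ RC12.rc A + (RC12.coverDim X : ℝ≥0∞) / 2 + 1 := by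
  intro A _ X _ _ _
  exact RC12.rc_le A X

end Pool.Agent.Results.MP_19886c_an.RadiusOfComparison
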